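import Pool.Agent.Lib.MP_33650d_pr.Main
import Pool.Agent.Lib.MP_33650d_pr.Bridge

open MeasureTheory ProbabilityTheory

namespace Pool.Agent.Variants.MP_33650d_pr.BerryEsseenBound

/-- The Berry-Esseen inequality for independent, not necessarily identically distributed
summands holds with the constant `0.451`. -/
theorem result :
    ∀ (n : ℕ) (Ω : Type) [MeasureSpace Ω]
        [IsProbabilityMeasure (volume : Measure Ω)] (X : Fin n → Ω → ℝ),
        0 < n → (∀ k, Measurable (X k)) → iIndepFun X volume →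
        (∀ k, MemLp (X k) 3 volume) → (∀ k, ∫ ω, X k ω = 0) →
        (∀ k, 0 < ∫ ω, X k ω ^ 2) →
        ∀ x : ℝ,
          |(volume {ω | (∑ k, X k ω) / Real.sqrt (∑ k, ∫ ω, X k ω ^ 2) ≤ x}).toReal
              - cdf (gaussianReal 0 1) x|
            ≤ 0.451 * ((∑ k, ∫ ω, |X k ω| ^ 3) / Real.sqrt (∑ k, ∫ ω, X k ω ^ 2) ^ 3) :=
  Pool.Agent.Lib.MP_33650d_pr.bridge 0.451
    (Pool.Agent.Lib.MP_33650d_pr.upper_main.mono (by norm_num))

end Pool.Agent.Variants.MP_33650d_pr.BerryEsseenBound
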